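import Pool.Agent.Mg.F760060.Ge167db

namespace Pool.Agent.Results.MP_760060_nt.NonWieferich

open Pool.Agent.MP_760060_nt

theorem result : ∀ ε : ℝ, 0 < ε → ∃ K : ℝ, ∃ M₀ : ℕ, ∀ M : ℕ, M₀ ≤ M →
    K * √(Real.log (Real.log M)) ≤ NW M →
      ((T ∩ Set.Icc 1 M).ncard : ℝ) ≤ ε * (S ∩ Set.Icc 1 M).ncard :=
  main

end Pool.Agent.Results.MP_760060_nt.NonWieferich
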